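import Mathlib

open Metric Topology Filter

namespace H11.DF

variable (A : Type) [NormedRing A]

/-- `Ideal'(A)`: the proper closed two-sided ideals. -/
def Idl : Type := {K : TwoSidedIdeal A // IsClosed (K : Set A) ∧ K ≠ ⊤}

/-- The Wijsman topology: the weakest one making every `K ↦ d(x, K)` continuous. -/
noncomputable instance : TopologicalSpace (Idl A) :=
  ⨅ x : A, TopologicalSpace.induced (fun K : Idl A => infDist x (K.1 : Set A)) inferInstance

/-- The ideals with Dedekind finite quotient. -/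
def DF : Set (Idl A) := {K | ∀ a b : K.1.ringCon.Quotient, a * b = 1 → b * a = 1}

variable {A}

theorem mem_DF (K : Idl A) : K ∈ DF A ↔ ∀ a b : A, a * b - 1 ∈ K.1 → b * a - 1 ∈ K.1 := by
  have e : ∀ x : A, x - 1 ∈ K.1 ↔ (x : K.1.ringCon.Quotient) = 1 := fun x => by
    rw [← RingCon.coe_one, RingCon.eq, TwoSidedIdeal.rel_iff]
  simp only [e, RingCon.coe_mul]
  refine ⟨fun h a b => h _ _, fun h a b => ?_⟩
  obtain ⟨a, rfl⟩ := Quotient.exists_rep a
  obtain ⟨b, rfl⟩ := Quotient.exists_rep b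
  exact h a b

theorem cont (x : A) : Continuous fun K : Idl A => infDist x (K.1 : Set A) :=
  continuous_iInf_dom (i := x) continuous_induced_dom

end H11.DF

open H11.DF

theorem Pool.Agent.Results.MP_332c3b_lc.Closed.result (A : Type) [NormedRing A] [CompleteSpace A] :
    IsClosed (DF A) ∧ ∃ F : ℕ → Set (Idl A), (∀ n, IsClosed (F n)) ∧ DF A = ⋃ n, F n := by
  suffices h : IsClosed (DF A) from ⟨h, fun _ => DF A, fun _ => h, (Set.iUnion_const _).symm⟩
  refine isClosed_of_closure_subset fun K hK => (mem_DF K).2 fun a b hab => ?_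
  rw [← SetLike.mem_coe, K.2.1.mem_iff_infDist_zero ⟨0, K.1.zero_mem⟩]
  refine le_antisymm (le_of_forall_pos_le_add fun ε hε => ?_) infDist_nonneg
  have c : ContinuousAt (fun u : A => ‖b * (1 - Ring.inverse u) * a‖) (1 : Aˣ) := by
    have := NormedRing.inverse_continuousAt (1 : Aˣ)
    fun_prop
  have h1 := (c.eventually (gt_mem_nhds (by simpa using hε : _ < ε))).and
    (Units.nhds (1 : Aˣ))
  obtain ⟨δ, hδ, h2⟩ := Metric.eventually_nhds_iff.1 h1
  have h3 : ∀ᶠ L : Idl A in 𝓝 K, infDist (a * b - 1) (L.1 : Set A) < δ :=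
    (cont _).continuousAt.eventually (gt_mem_nhds ((infDist_zero_of_mem hab).trans_lt hδ))
  rw [zero_add]
  refine (isClosed_le (cont (b * a - 1)) continuous_const).mem_of_frequently_of_tendsto
    (((mem_closure_iff_frequently.1 hK).and_eventually h3).mono ?_) tendsto_id
  rintro L ⟨h4, h5⟩
  obtain ⟨z, hz, h6⟩ := (infDist_lt_iff ⟨0, L.1.zero_mem⟩).1 h5
  obtain ⟨h7, u, hu⟩ := h2 (y := a * b - z) (by
    rw [dist_eq_norm] at h6 ⊢
    rwa [Units.val_one, sub_right_comm])
  rw [← hu, Ring.inverse_unit] at h7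
  have h8 := (mem_DF L).1 h4 a (b * u⁻¹) (by
    rw [← mul_assoc, eq_sub_iff_add_eq.1 hu |>.symm, add_mul, Units.mul_inv, add_sub_cancel_left]
    exact L.1.mul_mem_right _ _ hz)
  refine (infDist_le_dist_of_mem h8).trans (le_of_eq_of_le ?_ h7.le)
  rw [dist_eq_norm]
  congr 1
  noncomm_ring
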